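import Mathlib

/-!
Pure algebra for the frozen side of MP_43d240_ag (S00162): quaternion algebras over a
commutative ring, surjectivity of `AlgHom.mulLeftRight`, tensor products, base change.
-/

set_option autoImplicit false
open scoped TensorProduct
open MulOpposite

namespace PIEnd

noncomputable section

/-- For a free finite algebra surjectivity of `A ⊗ Aᵒᵖ → End A` is enough. -/
theorem azumaya_of_surj {R A : Type*} [CommRing R] [Nontrivial R] [Ring A] [Nontrivial A]
    [Algebra R A] [Module.Free R A] [Module.Finite R A]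
    (h : Function.Surjective (AlgHom.mulLeftRight R A)) : IsAzumaya R A := by
  have hop : Module.Free R Aᵐᵒᵖ :=
    Module.Free.of_equiv (opLinearEquiv R : A ≃ₗ[R] Aᵐᵒᵖ)
  have hopf : Module.Finite R Aᵐᵒᵖ :=
    Module.Finite.equiv (opLinearEquiv R : A ≃ₗ[R] Aᵐᵒᵖ)
  have hfr : Module.finrank R (Module.End R A) = Module.finrank R (A ⊗[R] Aᵐᵒᵖ) := by
    rw [Module.finrank_tensorProduct, Module.finrank_linearMap]
    rw [LinearEquiv.finrank_eq (opLinearEquiv R : A ≃ₗ[R] Aᵐᵒᵖ)]
  let e : Module.End R A ≃ₗ[R] (A ⊗[R] Aᵐᵒᵖ) := LinearEquiv.ofFinrankEq _ _ hfr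
  let g : (A ⊗[R] Aᵐᵒᵖ) →ₗ[R] (A ⊗[R] Aᵐᵒᵖ) :=
    e.toLinearMap ∘ₗ (AlgHom.mulLeftRight R A).toLinearMap
  have hg : Function.Surjective g := e.surjective.comp h
  have hgi : Function.Injective g := OrzechProperty.injective_of_surjective_endomorphism g hg
  have hi : Function.Injective (AlgHom.mulLeftRight R A) := by
    intro x y hxy
    apply hgi
    change e (AlgHom.mulLeftRight R A x) = e (AlgHom.mulLeftRight R A y)
    rw [hxy]
  have hf : FaithfulSMul R A := inferInstance
  exact { toProjective := inferInstance, toFaithfulSMul := hf, toFinite := inferInstance, bij := ⟨hi, h⟩ }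

/-- The quaternion algebra over a commutative ring. -/
theorem quat_surj {R : Type*} [CommRing R] (a b : R) (ha : IsUnit a) (hb : IsUnit b)
    (h2 : IsUnit (2 : R)) :
    Function.Surjective (AlgHom.mulLeftRight R (QuaternionAlgebra R a 0 b)) := by
  obtain ⟨a', ha'⟩ := ha.exists_right_inv
  obtain ⟨b', hb'⟩ := hb.exists_right_inv
  obtain ⟨c, hc⟩ := h2.exists_right_inv
  let qi : QuaternionAlgebra R a 0 b := ⟨0, 1, 0, 0⟩
  let qj : QuaternionAlgebra R a 0 b := ⟨0, 0, 1, 0⟩
  let qk : QuaternionAlgebra R a 0 b := ⟨0, 0, 0, 1⟩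
  let p0 : QuaternionAlgebra R a 0 b ⊗[R] (QuaternionAlgebra R a 0 b)ᵐᵒᵖ :=
    (c ^ 2) • ((1 ⊗ₜ op 1) + a' • (qi ⊗ₜ op qi) + b' • (qj ⊗ₜ op qj)
      - (a' * b') • (qk ⊗ₜ op qk))
  have hp0 : ∀ x : QuaternionAlgebra R a 0 b,
      AlgHom.mulLeftRight R _ p0 x = ⟨x.re, 0, 0, 0⟩ := by
    intro x
    have hcc : c ^ 2 * 4 = 1 := by
      have : (2 * c) ^ 2 = 1 := by rw [hc]; ring
      linear_combination this
    simp only [p0, map_smul, map_add, map_sub, LinearMap.smul_apply, LinearMap.add_apply,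
      LinearMap.sub_apply, AlgHom.mulLeftRight_apply, unop_op]
    ext
    · simp [qi, qj, qk]
      linear_combination (x.re) * hcc + c ^ 2 * x.re * (ha' + hb' + a' * a * hb' + ha')
        + 0 * hb'
    · simp [qi, qj, qk]
      linear_combination -(c ^ 2 * x.imI * (1 + a * a')) * hb'
    · simp [qi, qj, qk]
      linear_combination -(c ^ 2 * x.imJ * (1 + b * b')) * ha'
    · simp [qi, qj, qk]
      linear_combination -(c ^ 2 * x.imK * (1 - b * b')) * ha'
  intro f
  refine ⟨(f 1 ⊗ₜ op 1) * p0 + (f qi ⊗ₜ op 1) * p0 * ((a' • qi) ⊗ₜ op 1)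
    + (f qj ⊗ₜ op 1) * p0 * ((b' • qj) ⊗ₜ op 1)
    + (f qk ⊗ₜ op 1) * p0 * ((-(a' * b') • qk) ⊗ₜ op 1), ?_⟩
  have hm : ∀ (y z : QuaternionAlgebra R a 0 b) (x : QuaternionAlgebra R a 0 b),
      AlgHom.mulLeftRight R _ ((y ⊗ₜ op 1) * p0 * (z ⊗ₜ op 1)) x = ((z * x).re) • y := by
    intro y z x
    rw [map_mul, map_mul, Module.End.mul_apply, Module.End.mul_apply]
    simp only [AlgHom.mulLeftRight_apply, unop_op, mul_one, hp0]
    ext <;> simp [mul_comm]
  have hm1 : ∀ (y : QuaternionAlgebra R a 0 b) (x : QuaternionAlgebra R a 0 b),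
      AlgHom.mulLeftRight R _ ((y ⊗ₜ op 1) * p0) x = x.re • y := by
    intro y x
    have := hm y 1 x
    rw [one_mul] at this
    rw [← this]
    congr 1
    have h1 : (1 : QuaternionAlgebra R a 0 b) ⊗ₜ[R] (op (1 : QuaternionAlgebra R a 0 b)) =
      (1 : QuaternionAlgebra R a 0 b ⊗[R] (QuaternionAlgebra R a 0 b)ᵐᵒᵖ) := rfl
    rw [h1, mul_one]
  apply LinearMap.ext
  intro x
  rw [map_add, map_add, map_add, LinearMap.add_apply, LinearMap.add_apply, LinearMap.add_apply,
    hm, hm, hm, hm1]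
  have hx : x = x.re • 1 + x.imI • qi + x.imJ • qj + x.imK • qk := by
    ext <;> simp [qi, qj, qk]
  conv_rhs => rw [hx]
  rw [map_add, map_add, map_add, map_smul, map_smul, map_smul, map_smul]
  have e1 : ((a' • qi) * x).re = x.imI := by
    simp [qi]
    linear_combination x.imI * ha'
  have e2 : ((b' • qj) * x).re = x.imJ := by
    simp [qj]
    linear_combination x.imJ * hb'
  have e3 : ((-(a' * b') • qk) * x).re = x.imK := by
    simp [qk]
    linear_combination x.imK * (b * b') * ha' + x.imK * hb'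
  rw [e1, e2, e3]


/-- Surjectivity passes to tensor products. -/
theorem tensor_surj {R A B : Type*} [CommRing R] [Ring A] [Ring B] [Algebra R A] [Algebra R B]
    [Module.Free R A] [Module.Finite R A] [Module.Free R B] [Module.Finite R B]
    (hA : Function.Surjective (AlgHom.mulLeftRight R A))
    (hB : Function.Surjective (AlgHom.mulLeftRight R B)) :
    Function.Surjective (AlgHom.mulLeftRight R (A ⊗[R] B)) := by
  have key : ∀ (s : A ⊗[R] Aᵐᵒᵖ) (t : B ⊗[R] Bᵐᵒᵖ), ∃ w : (A ⊗[R] B) ⊗[R] (A ⊗[R] B)ᵐᵒᵖ,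
      AlgHom.mulLeftRight R (A ⊗[R] B) w =
        TensorProduct.map (AlgHom.mulLeftRight R A s) (AlgHom.mulLeftRight R B t) := by
    intro s t
    induction s using TensorProduct.induction_on with
    | zero => exact ⟨0, by simp⟩
    | add s1 s2 h1 h2 =>
      obtain ⟨w1, hw1⟩ := h1
      obtain ⟨w2, hw2⟩ := h2
      exact ⟨w1 + w2, by rw [map_add, map_add, hw1, hw2, TensorProduct.map_add_left]⟩
    | tmul a a' =>
      induction t using TensorProduct.induction_on with
      | zero => exact ⟨0, by simp⟩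
      | add s1 s2 h1 h2 =>
        obtain ⟨w1, hw1⟩ := h1
        obtain ⟨w2, hw2⟩ := h2
        exact ⟨w1 + w2, by rw [map_add, map_add, hw1, hw2, TensorProduct.map_add_right]⟩
      | tmul b b' =>
        refine ⟨(a ⊗ₜ b) ⊗ₜ op (a'.unop ⊗ₜ b'.unop), ?_⟩
        apply TensorProduct.ext'
        intro x y
        simp [Algebra.TensorProduct.tmul_mul_tmul]
  have key2 : ∀ (u : (Module.End R A) ⊗[R] (Module.End R B)),
      ∃ w : (A ⊗[R] B) ⊗[R] (A ⊗[R] B)ᵐᵒᵖ,
      AlgHom.mulLeftRight R (A ⊗[R] B) w = TensorProduct.homTensorHomMap (RingHom.id R) A B A B u := by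
    intro u
    induction u using TensorProduct.induction_on with
    | zero => exact ⟨0, by simp⟩
    | add s1 s2 h1 h2 =>
      obtain ⟨w1, hw1⟩ := h1
      obtain ⟨w2, hw2⟩ := h2
      exact ⟨w1 + w2, by rw [map_add, map_add, hw1, hw2]⟩
    | tmul f g =>
      obtain ⟨s, rfl⟩ := hA f
      obtain ⟨t, rfl⟩ := hB g
      obtain ⟨w, hw⟩ := key s t
      exact ⟨w, by rw [hw]; rfl⟩
  intro F
  obtain ⟨u, hu⟩ := (homTensorHomEquiv R A B A B).surjective F
  obtain ⟨w, hw⟩ := key2 u
  refine ⟨w, ?_⟩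
  rw [hw, ← hu]
  exact (LinearMap.congr_fun (homTensorHomEquiv_toLinearMap R A B A B) u).symm

/-- `Q` has the form `K ⊗ A` with `A` free, finite, and Azumaya over `R`. -/
def AzAt (R : Type) [CommRing R] (K Q : Type) [Field K] [Algebra R K] [Ring Q] [Algebra K Q] :
    Prop :=
  ∃ (A : Type) (_ : Ring A) (_ : Algebra R A), Module.Free R A ∧ Module.Finite R A ∧
    Nontrivial A ∧
    Function.Surjective (AlgHom.mulLeftRight R A) ∧ Nonempty (K ⊗[R] A ≃ₐ[K] Q)

/-- A surjective algebra homomorphism between algebras of the same finite dimension. -/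
def equivOfSurj {K A B : Type*} [Field K] [Ring A] [Ring B] [Algebra K A] [Algebra K B]
    [FiniteDimensional K A] [FiniteDimensional K B]
    (h : Module.finrank K A = Module.finrank K B) (g : A →ₐ[K] B) (hg : Function.Surjective g) :
    A ≃ₐ[K] B :=
  AlgEquiv.ofBijective g ⟨by
    have := LinearMap.injective_iff_surjective_of_finrank_eq_finrank (f := g.toLinearMap) h
    exact this.2 hg, hg⟩

/-- Base change of a quaternion algebra: slots which are unit times square. -/
theorem azAt_quat (R K : Type) [CommRing R] [Nontrivial R] [Field K] [Algebra R K]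
    (h2 : IsUnit (2 : R)) (a b : K) (u v : Rˣ) (c d : K) (hc : c ≠ 0) (hd : d ≠ 0)
    (hu : a = algebraMap R K u * c ^ 2) (hv : b = algebraMap R K v * d ^ 2) :
    AzAt R K (QuaternionAlgebra K a 0 b) := by
  refine ⟨QuaternionAlgebra R (u : R) 0 (v : R), inferInstance, inferInstance, inferInstance,
    inferInstance, inferInstance, quat_surj _ _ u.isUnit v.isUnit h2, ?_⟩
  have hal : ∀ r : R, algebraMap R (QuaternionAlgebra K a 0 b) r =
      ⟨algebraMap R K r, 0, 0, 0⟩ := fun r => rfl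
  let q : QuaternionAlgebra.Basis (QuaternionAlgebra K a 0 b) (u : R) 0 (v : R) :=
    { i := ⟨0, c⁻¹, 0, 0⟩
      j := ⟨0, 0, d⁻¹, 0⟩
      k := ⟨0, 0, 0, c⁻¹ * d⁻¹⟩
      i_mul_i := by
        ext <;> simp [hu, hal, Algebra.smul_def]
        field_simp
      j_mul_j := by
        ext <;> simp [hv, hal, Algebra.smul_def]
        field_simp
      i_mul_j := by
        ext <;> simp
      j_mul_i := by
        ext <;> simp [mul_comm] }
  let g : QuaternionAlgebra R (u : R) 0 (v : R) →ₐ[R] QuaternionAlgebra K a 0 b := q.liftHom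
  let G : K ⊗[R] QuaternionAlgebra R (u : R) 0 (v : R) →ₐ[K] QuaternionAlgebra K a 0 b :=
    Algebra.TensorProduct.lift (Algebra.ofId K _) g (fun x y => Algebra.commutes x (g y))
  have hG : Function.Surjective G := by
    intro x
    refine ⟨x.re ⊗ₜ 1 + (x.imI * c) ⊗ₜ ⟨0, 1, 0, 0⟩ + (x.imJ * d) ⊗ₜ ⟨0, 0, 1, 0⟩
      + (x.imK * c * d) ⊗ₜ ⟨0, 0, 0, 1⟩, ?_⟩
    rw [map_add, map_add, map_add]
    simp only [G, Algebra.TensorProduct.lift_tmul, g, QuaternionAlgebra.Basis.liftHom]
    ext <;> simp [QuaternionAlgebra.Basis.lift, q, Algebra.ofId_apply]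
    all_goals field_simp
  refine ⟨equivOfSurj ?_ G hG⟩
  rw [Module.finrank_baseChange, QuaternionAlgebra.finrank_eq_four,
    QuaternionAlgebra.finrank_eq_four]

/-- Tensor products. -/
theorem azAt_tensor (R K Q Q' : Type) [CommRing R] [Nontrivial R] [Field K] [Algebra R K]
    [Ring Q] [Algebra K Q] [Ring Q'] [Algebra K Q']
    (h : AzAt R K Q) (h' : AzAt R K Q') : AzAt R K (Q ⊗[K] Q') := by
  obtain ⟨A, iA, jA, fA, gA, nA, sA, ⟨eA⟩⟩ := h
  obtain ⟨B, iB, jB, fB, gB, nB, sB, ⟨eB⟩⟩ := h'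
  have hfA : FiniteDimensional K Q := Module.Finite.equiv eA.toLinearEquiv
  have hfB : FiniteDimensional K Q' := Module.Finite.equiv eB.toLinearEquiv
  have hrA : Module.finrank K Q = Module.finrank R A := by
    rw [← eA.toLinearEquiv.finrank_eq, Module.finrank_baseChange]
  have hrB : Module.finrank K Q' = Module.finrank R B := by
    rw [← eB.toLinearEquiv.finrank_eq, Module.finrank_baseChange]
  refine ⟨A ⊗[R] B, inferInstance, inferInstance, inferInstance, inferInstance, ?_,
    tensor_surj sA sB, ?_⟩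
  · have bA := Module.Free.chooseBasis R A
    have bB := Module.Free.chooseBasis R B
    obtain ⟨i⟩ := bA.index_nonempty
    obtain ⟨j⟩ := bB.index_nonempty
    exact ⟨⟨(bA.tensorProduct bB) (i, j), 0, (bA.tensorProduct bB).ne_zero _⟩⟩
  · let : Algebra R Q := Algebra.compHom Q (algebraMap R K)
    let : Algebra R Q' := Algebra.compHom Q' (algebraMap R K)
    have : IsScalarTower R K Q := IsScalarTower.of_algebraMap_eq' rfl
    have : IsScalarTower R K Q' := IsScalarTower.of_algebraMap_eq' rfl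
    let gA : A →ₐ[R] (Q ⊗[K] Q') :=
      ((Algebra.TensorProduct.includeLeft : Q →ₐ[K] Q ⊗[K] Q').restrictScalars R).comp
        ((eA.toAlgHom.restrictScalars R).comp Algebra.TensorProduct.includeRight)
    let gB : B →ₐ[R] (Q ⊗[K] Q') :=
      ((Algebra.TensorProduct.includeRight : Q' →ₐ[K] Q ⊗[K] Q').restrictScalars R).comp
        ((eB.toAlgHom.restrictScalars R).comp Algebra.TensorProduct.includeRight)
    let g : A ⊗[R] B →ₐ[R] (Q ⊗[K] Q') := Algebra.TensorProduct.lift gA gB (by
      intro x y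
      simp only [gA, gB]
      change (_ ⊗ₜ _) * (_ ⊗ₜ _) = (_ ⊗ₜ _) * (_ ⊗ₜ _)
      simp [Algebra.TensorProduct.tmul_mul_tmul])
    let G : K ⊗[R] (A ⊗[R] B) →ₐ[K] Q ⊗[K] Q' :=
      Algebra.TensorProduct.lift (Algebra.ofId K _) g (fun x y => Algebra.commutes x (g y))
    have hl : ∀ x : Q, x ⊗ₜ[K] (1 : Q') ∈ G.range := by
      intro x
      obtain ⟨y, rfl⟩ := eA.surjective x
      induction y using TensorProduct.induction_on with
      | zero => simp
      | add s t hs ht => rw [map_add, TensorProduct.add_tmul]; exact add_mem hs ht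
      | tmul c a =>
        refine ⟨c ⊗ₜ (a ⊗ₜ 1), ?_⟩
        have h1 : g (a ⊗ₜ 1) = (eA (1 ⊗ₜ a)) ⊗ₜ 1 := by
          simp only [g, Algebra.TensorProduct.lift_tmul, map_one, mul_one]
          rfl
        change G (c ⊗ₜ (a ⊗ₜ 1)) = _
        simp only [G, Algebra.TensorProduct.lift_tmul, h1]
        rw [Algebra.ofId_apply, ← Algebra.smul_def, TensorProduct.smul_tmul', ← map_smul,
          TensorProduct.smul_tmul', smul_eq_mul, mul_one]
    have hr : ∀ x : Q', (1 : Q) ⊗ₜ[K] x ∈ G.range := by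
      intro x
      obtain ⟨y, rfl⟩ := eB.surjective x
      induction y using TensorProduct.induction_on with
      | zero => simp
      | add s t hs ht => rw [map_add, TensorProduct.tmul_add]; exact add_mem hs ht
      | tmul c a =>
        refine ⟨c ⊗ₜ (1 ⊗ₜ a), ?_⟩
        have h1 : g (1 ⊗ₜ a) = 1 ⊗ₜ (eB (1 ⊗ₜ a)) := by
          simp only [g, Algebra.TensorProduct.lift_tmul, map_one, one_mul]
          rfl
        change G (c ⊗ₜ (1 ⊗ₜ a)) = _
        simp only [G, Algebra.TensorProduct.lift_tmul, h1]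
        rw [Algebra.ofId_apply, ← Algebra.smul_def, ← TensorProduct.tmul_smul, ← map_smul,
          TensorProduct.smul_tmul', smul_eq_mul, mul_one]
    have hG : Function.Surjective G := by
      intro x
      induction x using TensorProduct.induction_on with
      | zero => exact ⟨0, map_zero _⟩
      | add s t hs ht =>
        obtain ⟨s', rfl⟩ := hs
        obtain ⟨t', rfl⟩ := ht
        exact ⟨s' + t', map_add _ _ _⟩
      | tmul c a =>
        have := mul_mem (hl c) (hr a)
        rw [Algebra.TensorProduct.tmul_mul_tmul, mul_one, one_mul] at this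
        exact this
    refine ⟨equivOfSurj ?_ G hG⟩
    rw [Module.finrank_baseChange, Module.finrank_tensorProduct, Module.finrank_tensorProduct,
      hrA, hrB]

end

end PIEnd
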