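import Pool.Agent.Lib.MP_43d240_ag.H15.AzAlg

/-!
`D ⊗ D ≃ M_n(K)` in the form of a `PiTensorProduct` over `Fin 2`.
-/

set_option autoImplicit false
open scoped TensorProduct
open MulOpposite

namespace PIEnd

noncomputable section

/-- the algebra homomorphism `D ⊗ D → ⨂ (Fin 2) D` -/
def toPi (K D : Type) [Field K] [Ring D] [Algebra K D] :
    D ⊗[K] D →ₐ[K] (⨂[K] (_ : Fin 2), D) :=
  Algebra.TensorProduct.lift
    (PiTensorProduct.singleAlgHom (R := K) (A := fun _ : Fin 2 => D) 0)
    (PiTensorProduct.singleAlgHom (R := K) (A := fun _ : Fin 2 => D) 1) (by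
      intro x y
      rw [PiTensorProduct.singleAlgHom_apply, PiTensorProduct.singleAlgHom_apply]
      apply Commute.tprod
      rw [Pi.commute_iff]
      intro i
      fin_cases i <;> simp [Commute, SemiconjBy, MonoidHom.mulSingle_apply, Pi.mulSingle])

theorem toPi_surjective (K D : Type) [Field K] [Ring D] [Algebra K D] :
    Function.Surjective (toPi K D) := by
  intro z
  have hz : z ∈ Submodule.span K (Set.range (PiTensorProduct.tprod K (s := fun _ : Fin 2 => D))) := by
    rw [PiTensorProduct.span_tprod_eq_top]; trivial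
  induction hz using Submodule.span_induction with
  | zero => exact ⟨0, map_zero _⟩
  | add x y _ _ hx hy =>
    obtain ⟨x', rfl⟩ := hx
    obtain ⟨y', rfl⟩ := hy
    exact ⟨x' + y', map_add _ _ _⟩
  | smul c x _ hx =>
    obtain ⟨x', rfl⟩ := hx
    exact ⟨c • x', map_smul _ _ _⟩
  | mem x hx =>
    obtain ⟨f, rfl⟩ := hx
    refine ⟨f 0 ⊗ₜ f 1, ?_⟩
    simp only [toPi, Algebra.TensorProduct.lift_tmul]
    rw [PiTensorProduct.singleAlgHom_apply, PiTensorProduct.singleAlgHom_apply,
      PiTensorProduct.tprod_mul_tprod]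
    congr 1
    funext i
    fin_cases i <;> simp [MonoidHom.mulSingle_apply, Pi.mulSingle]

theorem finrank_pi (K D : Type) [Field K] [Ring D] [Algebra K D] [FiniteDimensional K D] :
    Module.finrank K (⨂[K] (_ : Fin 2), D) = Module.finrank K D ^ 2 := by
  let b := Module.finBasis K D
  rw [Module.finrank_eq_card_basis (Basis.piTensorProduct (fun _ : Fin 2 => b))]
  simp

/-- `D ⊗ D` is split when `D` is Azumaya and isomorphic to its opposite. -/
theorem split_two (K D : Type) [Field K] [Ring D] [Nontrivial D] [Algebra K D]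
    [FiniteDimensional K D] (hs : Function.Surjective (AlgHom.mulLeftRight K D))
    (e : D ≃ₐ[K] Dᵐᵒᵖ) (n : ℕ) (hn : Module.finrank K D = n) :
    Nonempty ((⨂[K] (_ : Fin 2), D) ≃ₐ[K] Matrix (Fin n) (Fin n) K) := by
  have haz : IsAzumaya K D := azumaya_of_surj hs
  let e1 : D ⊗[K] D ≃ₐ[K] D ⊗[K] Dᵐᵒᵖ := Algebra.TensorProduct.congr AlgEquiv.refl e
  let e2 : D ⊗[K] Dᵐᵒᵖ ≃ₐ[K] Module.End K D :=
    AlgEquiv.ofBijective (AlgHom.mulLeftRight K D) haz.bij
  let e3 : Module.End K D ≃ₐ[K] Matrix (Fin n) (Fin n) K :=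
    algEquivMatrix (Module.finBasisOfFinrankEq K _ hn)
  have hb2 := Module.finBasis K D
  have hfd : FiniteDimensional K (⨂[K] (_ : Fin 2), D) :=
    Module.Finite.of_basis (Basis.piTensorProduct (fun _ : Fin 2 => hb2))
  have hfr : Module.finrank K (D ⊗[K] D) = Module.finrank K (⨂[K] (_ : Fin 2), D) := by
    rw [finrank_pi, Module.finrank_tensorProduct, sq]
  let e4 := equivOfSurj hfr (toPi K D) (toPi_surjective K D)
  exact ⟨e4.symm.trans (e1.trans (e2.trans e3))⟩

/-- `D ≃ M_1(D)` -/
def matOne (K D : Type) [CommRing K] [Ring D] [Algebra K D] : D ≃ₐ[K] Matrix (Fin 1) (Fin 1) D where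
  toFun d := Matrix.of fun _ _ => d
  invFun M := M 0 0
  left_inv _ := rfl
  right_inv M := by ext i j; fin_cases i; fin_cases j; rfl
  map_mul' x y := by ext i j; simp [Matrix.mul_apply]
  map_add' x y := by ext i j; simp
  commutes' r := by ext i j; fin_cases i; fin_cases j; simp [Matrix.algebraMap_matrix_apply]

end

end PIEnd
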