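import Pool.Agent.Lib.MP_43d240_ag.Frozen.Defs
import Pool.Agent.Lib.MP_43d240_ag.H15.AzAlg
import Pool.Agent.Lib.MP_43d240_ag.H15.PiTwo

/-!
Chapter END of the frozen side of MP_43d240_ag: Azumaya at the stalks and the literal form.
-/

set_option autoImplicit false
open AlgebraicGeometry CategoryTheory
open scoped TensorProduct
open MulOpposite

namespace Pool.Agent.PI

noncomputable section

theorem finrank_Q3 (K : Type) [Field K] (a b : Fin 3 → K) : Module.finrank K (Q3 K a b) = 64 := by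
  rw [Module.finrank_tensorProduct, Module.finrank_tensorProduct,
    QuaternionAlgebra.finrank_eq_four, QuaternionAlgebra.finrank_eq_four,
    QuaternionAlgebra.finrank_eq_four]

instance nontrivial_Q3 (K : Type) [Field K] (a b : Fin 3 → K) : Nontrivial (Q3 K a b) := by
  apply Module.nontrivial_of_finrank_pos (R := K)
  rw [finrank_Q3]
  norm_num

theorem isDomain_Q3 (K : Type) [Field K] (a b : Fin 3 → K) (h : NoZD (Q3 K a b)) :
    IsDomain (Q3 K a b) := by
  have : NoZeroDivisors (Q3 K a b) := ⟨fun {x y} hxy => h x y hxy⟩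
  exact NoZeroDivisors.to_isDomain (Q3 K a b)

theorem surj_Q3 (K : Type) [Field K] (h2 : (2 : K) ≠ 0) (a b : Fin 3 → K) (ha : ∀ j, a j ≠ 0)
    (hb : ∀ j, b j ≠ 0) : Function.Surjective (AlgHom.mulLeftRight K (Q3 K a b)) :=
  PIEnd.tensor_surj (PIEnd.quat_surj _ _ (ha 0).isUnit (hb 0).isUnit h2.isUnit)
    (PIEnd.tensor_surj (PIEnd.quat_surj _ _ (ha 1).isUnit (hb 1).isUnit h2.isUnit)
      (PIEnd.quat_surj _ _ (ha 2).isUnit (hb 2).isUnit h2.isUnit))

/-- the anti-automorphism -/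
def opQ3 (K : Type) [Field K] (a b : Fin 3 → K) : Q3 K a b ≃ₐ[K] (Q3 K a b)ᵐᵒᵖ :=
  (Algebra.TensorProduct.congr QuaternionAlgebra.starAe
    ((Algebra.TensorProduct.congr QuaternionAlgebra.starAe QuaternionAlgebra.starAe).trans
      (Algebra.TensorProduct.opAlgEquiv K K _ _))).trans (Algebra.TensorProduct.opAlgEquiv K K _ _)

/-- Azumaya at a stalk. -/
theorem azAt_Q3 (R K : Type) [CommRing R] [Nontrivial R] [Field K] [Algebra R K]
    (h2 : IsUnit (2 : R)) (a b : Fin 3 → K)
    (ha : ∀ j, ∃ (u : Rˣ) (c : K), c ≠ 0 ∧ a j = algebraMap R K u * c ^ 2)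
    (hb : ∀ j, ∃ (u : Rˣ) (c : K), c ≠ 0 ∧ b j = algebraMap R K u * c ^ 2) :
    PIEnd.AzAt R K (Q3 K a b) := by
  have h : ∀ j, PIEnd.AzAt R K (QuaternionAlgebra K (a j) 0 (b j)) := by
    intro j
    obtain ⟨u, c, hc, hu⟩ := ha j
    obtain ⟨v, d, hd, hv⟩ := hb j
    exact PIEnd.azAt_quat R K h2 _ _ u v c d hc hd hu hv
  exact PIEnd.azAt_tensor R K _ _ (h 0) (PIEnd.azAt_tensor R K _ _ (h 1) (h 2))

theorem azumaya_stalk (R K : Type) [CommRing R] [Nontrivial R] [Field K] [Algebra R K]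
    (h2 : IsUnit (2 : R)) (a b : Fin 3 → K)
    (ha : ∀ j, ∃ (u : Rˣ) (c : K), c ≠ 0 ∧ a j = algebraMap R K u * c ^ 2)
    (hb : ∀ j, ∃ (u : Rˣ) (c : K), c ≠ 0 ∧ b j = algebraMap R K u * c ^ 2) :
    ∃ (A : Type) (_ : Ring A) (_ : Algebra R A), IsAzumaya R A ∧
      ∃ m : ℕ, Nonempty (K ⊗[R] A ≃ₐ[K] Matrix (Fin m) (Fin m) (Q3 K a b)) := by
  obtain ⟨A, iA, jA, fA, gA, nA, sA, ⟨eA⟩⟩ := azAt_Q3 R K h2 a b ha hb
  exact ⟨A, iA, jA, PIEnd.azumaya_of_surj sA, 1, ⟨eA.trans (PIEnd.matOne K (Q3 K a b))⟩⟩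

/-- a ring homomorphism from `k` to every stalk -/
theorem exists_ringHom_stalk {k : Type} [Field k] {X : Scheme.{0}}
    (p : X ⟶ Spec (CommRingCat.of k)) (x : X) : Nonempty (k →+* X.presheaf.stalk x) := by
  let g1 : CommRingCat.of k ⟶ Γ(Spec (CommRingCat.of k), ⊤) :=
    (Scheme.ΓSpecIso (CommRingCat.of k)).inv
  let g2 : Γ(Spec (CommRingCat.of k), ⊤) ⟶ Γ(X, ⊤) := p.appTop
  let g3 : Γ(X, ⊤) ⟶ X.presheaf.stalk x := X.presheaf.germ ⊤ x trivial
  exact ⟨(g1 ≫ g2 ≫ g3).hom⟩

/-- The literal form from an abstract division algebra of dimension 64. -/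
theorem frozen_of_division (k : Type) [Field k] [IsAlgClosed k] (X : Scheme.{0}) [IsIntegral X]
    (p : X ⟶ Spec (CommRingCat.of k)) (hm : IsModel k X p)
    (D : Type) [DivisionRing D] [Algebra X.functionField D] [FiniteDimensional X.functionField D]
    (hs : Function.Surjective (AlgHom.mulLeftRight X.functionField D))
    (e : D ≃ₐ[X.functionField] Dᵐᵒᵖ) (hn : Module.finrank X.functionField D = 64)
    (hst : ∀ x : X, ∃ (A : Type) (_ : Ring A) (_ : Algebra (X.presheaf.stalk x) A),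
      IsAzumaya (X.presheaf.stalk x) A ∧
      ∃ m : ℕ, Nonempty (X.functionField ⊗[X.presheaf.stalk x] A ≃ₐ[X.functionField]
        Matrix (Fin m) (Fin m) D)) : FrozenStatement := by
  intro hall
  have haz : IsAzumaya X.functionField D := PIEnd.azumaya_of_surj hs
  have key := hall k X p hm.smooth hm.proper hm.proj 3 hm.dim D hst 2 (by norm_num)
    ⟨64, PIEnd.split_two X.functionField D hs e 64 hn⟩
  rw [hn] at key
  have h8 : Nat.sqrt 64 = 8 := by norm_num
  rw [h8] at key
  revert key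
  decide

theorem endStatement : EndStatement := by
  intro k _ _ _ X _ p hm a b ha hb hua hub hz
  have h2s : ∀ x : X, IsUnit (2 : X.presheaf.stalk x) := by
    intro x
    obtain ⟨g⟩ := exists_ringHom_stalk p x
    have h := (two_ne_zero (α := k)).isUnit.map g
    rwa [map_ofNat] at h
  have h2 : (2 : X.functionField) ≠ 0 := by
    obtain ⟨x⟩ : Nonempty X := inferInstance
    have h := (h2s x).map (algebraMap (X.presheaf.stalk x) X.functionField)
    rw [map_ofNat] at h
    exact h.ne_zero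
  have hdom : IsDomain (Q3 X.functionField a b) := isDomain_Q3 _ a b hz
  have hfd : FiniteDimensional X.functionField (Q3 X.functionField a b) := inferInstance
  let iD : DivisionRing (Q3 X.functionField a b) :=
    divisionRingOfFiniteDimensional X.functionField (Q3 X.functionField a b)
  exact frozen_of_division k X p hm (Q3 X.functionField a b)
    (surj_Q3 X.functionField h2 a b ha hb) (opQ3 _ a b) (finrank_Q3 _ a b) (fun x =>
      azumaya_stalk (X.presheaf.stalk x) X.functionField (h2s x) a b (fun j => hua j x)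
        (fun j => hub j x))

end

end Pool.Agent.PI
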